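import Mathlib

/-!
# State counts of transition-minimal NFAs are not linearly bounded

Over a two-letter alphabet there is no constant `C` such that every regular language `L` has a
transition-minimal NFA with at most `C * nsc L` states.
-/

namespace Pool.Agent.Results.MP_48fb2a_lc.UnboundedRatio

open Finset

/-- A nondeterministic finite automaton with a single start state and without `ε`-transitions. -/
structure Aut (A : Type) where
  Q : Type
  fin : Fintype Q
  start : Q
  final : Set Q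
  δ : Finset (Q × A × Q)

namespace Aut

variable {A : Type} (M : Aut A)

instance : Fintype M.Q := M.fin

/-- The word `w` leads from the state `q` to an accepting state. -/
def AcceptsFrom : M.Q → List A → Prop
  | q, [] => q ∈ M.final
  | q, a :: w => ∃ r, (q, a, r) ∈ M.δ ∧ AcceptsFrom r w

/-- The language recognized by the automaton. -/
def lang : Set (List A) := {w | M.AcceptsFrom M.start w}

/-- The number of states. -/
def numStates : ℕ := Fintype.card M.Q

/-- The number of transitions. -/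
def numTrans : ℕ := M.δ.card

end Aut

/-- `L` is regular: recognized by some NFA. -/
def Regular {A : Type} (L : Set (List A)) : Prop := ∃ M : Aut A, M.lang = L

/-- The least number of states of an NFA recognizing `L`. -/
noncomputable def nsc {A : Type} (L : Set (List A)) : ℕ :=
  sInf {n | ∃ M : Aut A, M.lang = L ∧ M.numStates = n}

/-- The least number of transitions of an NFA recognizing `L`. -/
noncomputable def tc {A : Type} (L : Set (List A)) : ℕ :=
  sInf {n | ∃ M : Aut A, M.lang = L ∧ M.numTrans = n}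

/-- The least number of states of a transition-minimal NFA recognizing `L`. -/
noncomputable def minStates {A : Type} (L : Set (List A)) : ℕ :=
  sInf {n | ∃ M : Aut A, M.lang = L ∧ M.numTrans = tc L ∧ M.numStates = n}

/-! ### The languages -/

section langs

variable {N : ℕ} (G : Finset (Fin N × Fin N))

/-- the language `{a^i b^(j+2) : (i, j) ∈ G}` -/
def LG : Set (List Bool) :=
  {w | ∃ i j : Fin N, (i, j) ∈ G ∧ w = List.replicate i false ++ List.replicate (j + 2) true}

/-- words accepted from the `p`-th state of the first chain -/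
def specP (p : Fin (N + 1)) (w : List Bool) : Prop :=
  ∃ (n : ℕ) (i j : Fin N), (p : ℕ) + n = i ∧ (i, j) ∈ G ∧
    w = List.replicate n false ++ List.replicate (j + 2) true

lemma specP_nil (p : Fin (N + 1)) : ¬ specP G p [] := by
  rintro ⟨n, i, j, -, -, h⟩
  have := congrArg List.length h
  simp at this

lemma specP_false (p : Fin (N + 1)) (w : List Bool) :
    specP G p (false :: w) ↔ ∃ i : Fin N, p = i.castSucc ∧ specP G i.succ w := by
  constructor
  · rintro ⟨n, i, j, h1, h2, h3⟩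
    cases n with
    | zero => simp [List.replicate_succ] at h3
    | succ n =>
      rw [List.replicate_succ, List.cons_append, List.cons.injEq] at h3
      refine ⟨⟨p, by omega⟩, Fin.ext (by simp), n, i, j, ?_, h2, h3.2⟩
      simp only [Fin.val_succ]
      omega
  · rintro ⟨i, rfl, n, i', j, h1, h2, rfl⟩
    refine ⟨n + 1, i', j, ?_, h2, ?_⟩
    · simp only [Fin.val_succ, Fin.val_castSucc] at h1 ⊢
      omega
    · rw [List.replicate_succ (n := n), List.cons_append]

lemma specP_true (p : Fin (N + 1)) (w : List Bool) :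
    specP G p (true :: w) ↔ ∃ i j : Fin N, p = i.castSucc ∧ (i, j) ∈ G ∧
      w = List.replicate (j + 1) true := by
  constructor
  · rintro ⟨n, i, j, h1, h2, h3⟩
    cases n with
    | zero =>
      refine ⟨i, j, Fin.ext (by simpa using h1), h2, ?_⟩
      rw [List.replicate_zero, List.nil_append, List.replicate_succ, List.cons.injEq] at h3
      exact h3.2
    | succ n => simp [List.replicate_succ] at h3
  · rintro ⟨i, j, rfl, h2, rfl⟩
    refine ⟨0, i, j, by simp, h2, ?_⟩
    rw [List.replicate_zero, List.nil_append, ← List.replicate_succ]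

lemma LG_eq : LG G = {w | specP G 0 w} := by
  ext w
  constructor
  · rintro ⟨i, j, h1, rfl⟩
    exact ⟨i, i, j, by simp, h1, rfl⟩
  · rintro ⟨n, i, j, h1, h2, rfl⟩
    refine ⟨i, j, h2, ?_⟩
    simp only [Fin.val_zero, zero_add] at h1
    rw [h1]

/-- the transitions of the first chain -/
def dA {R : Type} [DecidableEq R] : Finset ((Fin (N + 1) ⊕ R) × Bool × (Fin (N + 1) ⊕ R)) :=
  univ.image fun i : Fin N => (.inl i.castSucc, false, .inl i.succ)

/-- the transitions of the small automaton -/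
def smallδ : Finset ((Fin (N + 1) ⊕ Fin (N + 1)) × Bool × (Fin (N + 1) ⊕ Fin (N + 1))) :=
  dA ∪ (univ.image fun j : Fin N => (.inr j.succ, true, .inr j.castSucc)) ∪
    G.image fun x => (.inl x.1.castSucc, true, .inr x.2.succ)

/-- the small automaton -/
def small : Aut Bool where
  Q := Fin (N + 1) ⊕ Fin (N + 1)
  fin := inferInstance
  start := .inl 0
  final := {.inr 0}
  δ := smallδ G

lemma small_mem (x y : Fin (N + 1) ⊕ Fin (N + 1)) (a : Bool) : (x, a, y) ∈ (small G).δ ↔
    (∃ i : Fin N, x = .inl i.castSucc ∧ a = false ∧ y = .inl i.succ) ∨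
    (∃ j : Fin N, x = .inr j.succ ∧ a = true ∧ y = .inr j.castSucc) ∨
    (∃ i j : Fin N, (i, j) ∈ G ∧ x = .inl i.castSucc ∧ a = true ∧ y = .inr j.succ) := by
  show (x, a, y) ∈ smallδ G ↔ _
  simp only [smallδ, dA, Finset.mem_union, Finset.mem_image, Finset.mem_univ, true_and,
    Prod.mk.injEq, Prod.exists]
  constructor
  · rintro ((⟨i, h1, h2, h3⟩ | ⟨j, h1, h2, h3⟩) | ⟨i, j, h0, h1, h2, h3⟩)
    · exact Or.inl ⟨i, h1.symm, h2.symm, h3.symm⟩
    · exact Or.inr (Or.inl ⟨j, h1.symm, h2.symm, h3.symm⟩)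
    · exact Or.inr (Or.inr ⟨i, j, h0, h1.symm, h2.symm, h3.symm⟩)
  · rintro (⟨i, h1, h2, h3⟩ | ⟨j, h1, h2, h3⟩ | ⟨i, j, h0, h1, h2, h3⟩)
    · exact Or.inl (Or.inl ⟨i, h1.symm, h2.symm, h3.symm⟩)
    · exact Or.inl (Or.inr ⟨j, h1.symm, h2.symm, h3.symm⟩)
    · exact Or.inr ⟨i, j, h0, h1.symm, h2.symm, h3.symm⟩

lemma small_accepts (w : List Bool) :
    (∀ s : Fin (N + 1), (small G).AcceptsFrom (.inr s) w ↔ w = List.replicate s true) ∧
    (∀ p : Fin (N + 1), (small G).AcceptsFrom (.inl p) w ↔ specP G p w) := by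
  induction w with
  | nil =>
    constructor
    · intro s
      show (Sum.inr s : Fin (N + 1) ⊕ Fin (N + 1)) ∈ ({.inr 0} : Set _) ↔ _
      rw [Set.mem_singleton_iff, Sum.inr.injEq]
      constructor
      · rintro rfl; rfl
      · intro h
        have := congrArg List.length h
        simp only [List.length_nil, List.length_replicate] at this
        exact Fin.ext (by simp [← this])
    · intro p
      show (Sum.inl p : Fin (N + 1) ⊕ Fin (N + 1)) ∈ ({.inr 0} : Set _) ↔ _
      simp [specP_nil]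
  | cons a w ih =>
    constructor
    · intro s
      show (∃ r, (Sum.inr s, a, r) ∈ (small G).δ ∧ (small G).AcceptsFrom r w) ↔ _
      constructor
      · rintro ⟨r, h1, h2⟩
        rcases (small_mem G _ _ _).mp h1 with ⟨i, h3, -, -⟩ | ⟨j, h3, rfl, rfl⟩ |
          ⟨i, j, -, h3, -, -⟩
        · exact absurd h3 (by simp)
        · rw [Sum.inr.injEq] at h3
          subst h3
          rw [(ih.1 j.castSucc).mp h2]
          simp [List.replicate_succ]
        · exact absurd h3 (by simp)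
      · intro h
        have hs : s ≠ 0 := by
          rintro rfl
          simp at h
        obtain ⟨j, rfl⟩ := Fin.exists_succ_eq.mpr hs
        rw [Fin.val_succ, List.replicate_succ, List.cons.injEq] at h
        obtain ⟨rfl, h⟩ := h
        exact ⟨.inr j.castSucc, (small_mem G _ _ _).mpr (Or.inr (Or.inl ⟨j, rfl, rfl, rfl⟩)),
          (ih.1 _).mpr (by simpa using h)⟩
    · intro p
      show (∃ r, (Sum.inl p, a, r) ∈ (small G).δ ∧ (small G).AcceptsFrom r w) ↔ _
      constructor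
      · rintro ⟨r, h1, h2⟩
        rcases (small_mem G _ _ _).mp h1 with ⟨i, h3, rfl, rfl⟩ | ⟨j, h3, -, -⟩ |
          ⟨i, j, h4, h3, rfl, rfl⟩
        · rw [Sum.inl.injEq] at h3
          exact (specP_false G p w).mpr ⟨i, h3, (ih.2 _).mp h2⟩
        · exact absurd h3 (by simp)
        · rw [Sum.inl.injEq] at h3
          refine (specP_true G p w).mpr ⟨i, j, h3, h4, ?_⟩
          have := (ih.1 j.succ).mp h2
          rw [this, Fin.val_succ]
      · intro h
        cases a with
        | false =>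
          obtain ⟨i, h3, h4⟩ := (specP_false G p w).mp h
          exact ⟨.inl i.succ, (small_mem G _ _ _).mpr (Or.inl ⟨i, by rw [h3], rfl, rfl⟩),
            (ih.2 _).mpr h4⟩
        | true =>
          obtain ⟨i, j, h3, h4, h5⟩ := (specP_true G p w).mp h
          exact ⟨.inr j.succ, (small_mem G _ _ _).mpr
            (Or.inr (Or.inr ⟨i, j, h4, by rw [h3], rfl, rfl⟩)), (ih.1 _).mpr (by rw [h5, Fin.val_succ])⟩

lemma small_lang : (small G).lang = LG G := by
  rw [LG_eq]
  ext w
  exact (small_accepts G w).2 0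

lemma small_states : (small G).numStates = 2 * N + 2 := by
  show Fintype.card (Fin (N + 1) ⊕ Fin (N + 1)) = _
  rw [Fintype.card_sum, Fintype.card_fin]
  ring

end langs

section big

variable {K g : ℕ} (G : Finset (Fin (K * g) × Fin (K * g)))

/-- the set of the elements `e` of the `c`-th group with `(e, j) ∈ G` -/
def Xset (c : Fin K) (j : Fin (K * g)) : Finset (Fin g) :=
  univ.filter fun e => (finProdFinEquiv (c, e), j) ∈ G

/-- the states of the automaton with few transitions -/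
abbrev BQ (K g : ℕ) : Type := Fin (K * g + 1) ⊕ ((Fin K × Finset (Fin g)) ⊕ Fin (K * g + 1))

open Classical in
/-- the transitions of the automaton with few transitions -/
noncomputable def bigδ : Finset (BQ K g × Bool × BQ K g) :=
  dA ∪ (univ.image fun j : Fin (K * g) => (.inr (.inr j.succ), true, .inr (.inr j.castSucc))) ∪
    ((univ.filter fun x : (Fin K × Fin g) × Finset (Fin g) => x.1.2 ∈ x.2).image fun x =>
      (.inl (finProdFinEquiv x.1).castSucc, true, .inr (.inl (x.1.1, x.2)))) ∪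
    (univ.image fun x : Fin K × Fin (K * g) =>
      (.inr (.inl (x.1, Xset G x.1 x.2)), true, .inr (.inr x.2.castSucc)))

/-- the automaton with few transitions -/
noncomputable def big : Aut Bool where
  Q := BQ K g
  fin := inferInstance
  start := .inl 0
  final := {.inr (.inr 0)}
  δ := bigδ G

lemma card_union_le' {α : Type} {i : DecidableEq α} (s t : Finset α) :
    (s ∪ t).card ≤ s.card + t.card := Finset.card_union_le s t

lemma card_image_le' {α β : Type} {i : DecidableEq β} {s : Finset α} {f : α → β} :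
    (s.image f).card ≤ s.card := Finset.card_image_le

lemma big_trans : (big G).numTrans ≤ K * g + K * g + K * g * 2 ^ g + K * (K * g) := by
  show (bigδ G).card ≤ _
  unfold bigδ
  refine (card_union_le' _ _).trans (Nat.add_le_add ?_ ?_)
  · refine (card_union_le' _ _).trans (Nat.add_le_add ?_ ?_)
    · refine (card_union_le' _ _).trans (Nat.add_le_add ?_ ?_)
      · exact card_image_le'.trans (by simp)
      · exact card_image_le'.trans (by simp)
    · refine card_image_le'.trans ((Finset.card_filter_le _ _).trans ?_)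
      simp [Fintype.card_prod]
  · exact card_image_le'.trans (by simp)

lemma big_mem (x y : BQ K g) (a : Bool) : (x, a, y) ∈ (big G).δ ↔
    (∃ i : Fin (K * g), x = .inl i.castSucc ∧ a = false ∧ y = .inl i.succ) ∨
    (∃ j : Fin (K * g), x = .inr (.inr j.succ) ∧ a = true ∧ y = .inr (.inr j.castSucc)) ∨
    (∃ (c : Fin K) (e : Fin g) (X : Finset (Fin g)), e ∈ X ∧
      x = .inl (finProdFinEquiv (c, e)).castSucc ∧ a = true ∧ y = .inr (.inl (c, X))) ∨
    (∃ (c : Fin K) (j : Fin (K * g)), x = .inr (.inl (c, Xset G c j)) ∧ a = true ∧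
      y = .inr (.inr j.castSucc)) := by
  show (x, a, y) ∈ bigδ G ↔ _
  simp only [bigδ, dA, Finset.mem_union, Finset.mem_image, Finset.mem_univ, true_and, Finset.mem_filter,
    Prod.mk.injEq, Prod.exists]
  constructor
  · rintro (((⟨i, h1, h2, h3⟩ | ⟨j, h1, h2, h3⟩) | ⟨c, e, X, h0, h1, h2, h3⟩) |
      ⟨c, j, h1, h2, h3⟩)
    · exact Or.inl ⟨i, h1.symm, h2.symm, h3.symm⟩
    · exact Or.inr (Or.inl ⟨j, h1.symm, h2.symm, h3.symm⟩)
    · exact Or.inr (Or.inr (Or.inl ⟨c, e, X, h0, h1.symm, h2.symm, h3.symm⟩))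
    · exact Or.inr (Or.inr (Or.inr ⟨c, j, h1.symm, h2.symm, h3.symm⟩))
  · rintro (⟨i, h1, h2, h3⟩ | ⟨j, h1, h2, h3⟩ | ⟨c, e, X, h0, h1, h2, h3⟩ | ⟨c, j, h1, h2, h3⟩)
    · exact Or.inl (Or.inl (Or.inl ⟨i, h1.symm, h2.symm, h3.symm⟩))
    · exact Or.inl (Or.inl (Or.inr ⟨j, h1.symm, h2.symm, h3.symm⟩))
    · exact Or.inl (Or.inr ⟨c, e, X, h0, h1.symm, h2.symm, h3.symm⟩)
    · exact Or.inr ⟨c, j, h1.symm, h2.symm, h3.symm⟩

lemma big_accepts (w : List Bool) :
    (∀ s : Fin (K * g + 1), (big G).AcceptsFrom (.inr (.inr s)) w ↔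
      w = List.replicate s true) ∧
    (∀ (c : Fin K) (X : Finset (Fin g)), (big G).AcceptsFrom (.inr (.inl (c, X))) w ↔
      ∃ j : Fin (K * g), X = Xset G c j ∧ w = List.replicate (j + 1) true) ∧
    (∀ p : Fin (K * g + 1), (big G).AcceptsFrom (.inl p) w ↔ specP G p w) := by
  induction w with
  | nil =>
    refine ⟨?_, ?_, ?_⟩
    · intro s
      show (Sum.inr (Sum.inr s) : BQ K g) ∈ ({.inr (.inr 0)} : Set (BQ K g)) ↔ _
      rw [Set.mem_singleton_iff, Sum.inr.injEq, Sum.inr.injEq]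
      constructor
      · rintro rfl; rfl
      · intro h
        have := congrArg List.length h
        simp only [List.length_nil, List.length_replicate] at this
        exact Fin.ext (by simp [← this])
    · intro c X
      show (Sum.inr (Sum.inl (c, X)) : BQ K g) ∈ ({.inr (.inr 0)} : Set (BQ K g)) ↔ _
      rw [Set.mem_singleton_iff]
      constructor
      · intro h; exact absurd (Sum.inr.inj h) (by simp)
      · rintro ⟨j, -, h⟩; simp [List.replicate_succ] at h
    · intro p
      show (Sum.inl p : BQ K g) ∈ ({.inr (.inr 0)} : Set (BQ K g)) ↔ _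
      rw [Set.mem_singleton_iff]
      constructor
      · intro h; exact absurd h (by simp)
      · intro h; exact absurd h (specP_nil G p)
  | cons a w ih =>
    obtain ⟨ih1, ih2, ih3⟩ := ih
    refine ⟨?_, ?_, ?_⟩
    · intro s
      show (∃ r, (Sum.inr (Sum.inr s), a, r) ∈ (big G).δ ∧ (big G).AcceptsFrom r w) ↔ _
      constructor
      · rintro ⟨r, h1, h2⟩
        rcases (big_mem G _ _ _).mp h1 with ⟨i, h3, -, -⟩ | ⟨j, h3, rfl, rfl⟩ |
          ⟨c, e, X, -, h3, -, -⟩ | ⟨c, j, h3, -, -⟩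
        · exact absurd h3 (by simp)
        · have h3' := Sum.inr.inj (Sum.inr.inj h3)
          subst h3'
          rw [(ih1 j.castSucc).mp h2]
          simp [List.replicate_succ]
        · exact absurd h3 (by simp)
        · exact absurd (Sum.inr.inj h3) (by simp)
      · intro h
        have hs : s ≠ 0 := by
          rintro rfl
          simp at h
        obtain ⟨j, rfl⟩ := Fin.exists_succ_eq.mpr hs
        rw [Fin.val_succ, List.replicate_succ, List.cons.injEq] at h
        obtain ⟨rfl, h⟩ := h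
        exact ⟨.inr (.inr j.castSucc), (big_mem G _ _ _).mpr (Or.inr (Or.inl ⟨j, rfl, rfl, rfl⟩)),
          (ih1 _).mpr (by simpa using h)⟩
    · intro c X
      show (∃ r, (Sum.inr (Sum.inl (c, X)), a, r) ∈ (big G).δ ∧ (big G).AcceptsFrom r w) ↔ _
      constructor
      · rintro ⟨r, h1, h2⟩
        rcases (big_mem G _ _ _).mp h1 with ⟨i, h3, -, -⟩ | ⟨j, h3, rfl, rfl⟩ |
          ⟨c', e, X', -, h3, -, -⟩ | ⟨c', j, h3, rfl, rfl⟩
        · exact absurd h3 (by simp)
        · exact absurd (Sum.inr.inj h3) (by simp)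
        · exact absurd h3 (by simp)
        · have h3' := Sum.inl.inj (Sum.inr.inj h3)
          rw [Prod.mk.injEq] at h3'
          obtain ⟨rfl, rfl⟩ := h3'
          refine ⟨j, rfl, ?_⟩
          rw [(ih1 j.castSucc).mp h2, List.replicate_succ]
          simp
      · rintro ⟨j, rfl, h⟩
        rw [List.replicate_succ, List.cons.injEq] at h
        obtain ⟨rfl, h⟩ := h
        exact ⟨.inr (.inr j.castSucc),
          (big_mem G _ _ _).mpr (Or.inr (Or.inr (Or.inr ⟨c, j, rfl, rfl, rfl⟩))),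
          (ih1 _).mpr (by simpa using h)⟩
    · intro p
      show (∃ r, (Sum.inl p, a, r) ∈ (big G).δ ∧ (big G).AcceptsFrom r w) ↔ _
      constructor
      · rintro ⟨r, h1, h2⟩
        rcases (big_mem G _ _ _).mp h1 with ⟨i, h3, rfl, rfl⟩ | ⟨j, h3, -, -⟩ |
          ⟨c, e, X, h4, h3, rfl, rfl⟩ | ⟨c', j, h3, -, -⟩
        · have h3' := Sum.inl.inj h3
          exact (specP_false G p w).mpr ⟨i, h3', (ih3 _).mp h2⟩
        · exact absurd h3 (by simp)
        · have h3' := Sum.inl.inj h3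
          obtain ⟨j, h5, h6⟩ := (ih2 c X).mp h2
          refine (specP_true G p w).mpr ⟨_, j, h3', ?_, h6⟩
          rw [h5, Xset, Finset.mem_filter] at h4
          exact h4.2
        · exact absurd h3 (by simp)
      · intro h
        cases a with
        | false =>
          obtain ⟨i, h3, h4⟩ := (specP_false G p w).mp h
          exact ⟨.inl i.succ, (big_mem G _ _ _).mpr (Or.inl ⟨i, by rw [h3], rfl, rfl⟩),
            (ih3 _).mpr h4⟩
        | true =>
          obtain ⟨i, j, h3, h4, h5⟩ := (specP_true G p w).mp h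
          obtain ⟨⟨c, e⟩, rfl⟩ := finProdFinEquiv.surjective i
          refine ⟨.inr (.inl (c, Xset G c j)), (big_mem G _ _ _).mpr
            (Or.inr (Or.inr (Or.inl ⟨c, e, Xset G c j, ?_, by rw [h3], rfl, rfl⟩))),
            (ih2 _ _).mpr ⟨j, rfl, h5⟩⟩
          rw [Xset, Finset.mem_filter]
          exact ⟨Finset.mem_univ _, h4⟩

lemma big_lang : (big G).lang = LG G := by
  rw [LG_eq]
  ext w
  exact (big_accepts G w).2.2 0

end big

/-- distinct sets give distinct languages -/
lemma LG_injective {N : ℕ} : Function.Injective (LG : Finset (Fin N × Fin N) → Set (List Bool)) := by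
  have key : ∀ G G' : Finset (Fin N × Fin N), LG G = LG G' → G ⊆ G' := by
    intro G G' h x hx
    have h1 : List.replicate x.1 false ++ List.replicate (x.2 + 2) true ∈ LG G' := by
      rw [← h]
      exact ⟨x.1, x.2, hx, rfl⟩
    obtain ⟨i, j, h2, h3⟩ := h1
    have c1 := congrArg (List.count false) h3
    have c2 := congrArg (List.count true) h3
    simp [List.count_append, List.count_replicate] at c1 c2
    have e1 : x.1 = i := Fin.ext c1
    have e2 : x.2 = j := Fin.ext c2
    have : x = (i, j) := Prod.ext e1 e2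
    rw [this]
    exact h2
  exact fun G G' h => Finset.Subset.antisymm (key G G' h) (key G' G h.symm)

/-! ### Transport of automata to `Fin m` -/

/-- The language of a coded automaton. -/
def codeLang {m : ℕ} (c : Fin m × Finset (Fin m) × Finset (Fin m × Bool × Fin m)) :
    Set (List Bool) :=
  (Aut.mk (Fin m) inferInstance c.1 (c.2.1 : Set (Fin m)) c.2.2).lang

lemma exists_code {m t : ℕ} (M : Aut Bool) (hm : M.numStates ≤ m) (ht : M.numTrans ≤ t) :
    ∃ c : Fin m × Finset (Fin m) × Finset (Fin m × Bool × Fin m), c.2.2.card ≤ t ∧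
      codeLang c = M.lang := by
  classical
  let e : M.Q ↪ Fin m := (Fintype.equivFin M.Q).toEmbedding.trans (Fin.castLEEmb hm)
  refine ⟨(e M.start, univ.filter (fun x => ∃ q ∈ M.final, e q = x),
    M.δ.image fun x => (e x.1, x.2.1, e x.2.2)), Finset.card_image_le.trans ht, ?_⟩
  set M' : Aut Bool := Aut.mk (Fin m) inferInstance (e M.start)
    ((univ.filter (fun x => ∃ q ∈ M.final, e q = x) : Finset (Fin m)) : Set (Fin m))
    (M.δ.image fun x => (e x.1, x.2.1, e x.2.2)) with hM'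
  have key : ∀ (w : List Bool) (q : M.Q), M'.AcceptsFrom (e q) w ↔ M.AcceptsFrom q w := by
    intro w
    induction w with
    | nil =>
      intro q
      show e q ∈ ((univ.filter (fun x => ∃ q ∈ M.final, e q = x) : Finset (Fin m)) :
        Set (Fin m)) ↔ q ∈ M.final
      rw [Finset.mem_coe, Finset.mem_filter]
      constructor
      · rintro ⟨-, q', h1, h2⟩
        rwa [← e.injective h2]
      · intro h
        exact ⟨Finset.mem_univ _, q, h, rfl⟩
    | cons a w ih =>
      intro q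
      show (∃ r, (e q, a, r) ∈ (M.δ.image fun x => (e x.1, x.2.1, e x.2.2)) ∧
        M'.AcceptsFrom r w) ↔ ∃ r, (q, a, r) ∈ M.δ ∧ M.AcceptsFrom r w
      constructor
      · rintro ⟨r, h1, h2⟩
        obtain ⟨⟨q', a', r'⟩, h3, h4⟩ := Finset.mem_image.mp h1
        simp only [Prod.mk.injEq] at h4
        obtain ⟨h5, rfl, rfl⟩ := h4
        have h6 := e.injective h5
        subst h6
        exact ⟨r', h3, (ih r').mp h2⟩
      · rintro ⟨r, h1, h2⟩
        exact ⟨e r, Finset.mem_image.mpr ⟨(q, a, r), h1, rfl⟩, (ih r).mpr h2⟩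
  ext w
  exact key w M.start

/-! ### Counting -/

/-- the number of small sets of transitions -/
lemma count_small (m t x : ℕ) (hx : 1 ≤ x) :
    Fintype.card {δ : Finset (Fin m × Bool × Fin m) // δ.card ≤ t} * x ^ (2 * m ^ 2) ≤
      x ^ t * (1 + x) ^ (2 * m ^ 2) := by
  classical
  have hcard : Fintype.card (Fin m × Bool × Fin m) = 2 * m ^ 2 := by
    simp [Fintype.card_prod]
    ring
  have h1 := Fintype.sum_pow_mul_eq_add_pow (Fin m × Bool × Fin m) (1 : ℕ) x
  rw [hcard] at h1
  simp only [one_pow, one_mul] at h1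
  have h2 : ∑ _δ : {δ : Finset (Fin m × Bool × Fin m) // δ.card ≤ t}, x ^ (2 * m ^ 2 - t) ≤
      (1 + x) ^ (2 * m ^ 2) := by
    rw [← h1]
    calc ∑ _δ : {δ : Finset (Fin m × Bool × Fin m) // δ.card ≤ t}, x ^ (2 * m ^ 2 - t)
        ≤ ∑ δ : {δ : Finset (Fin m × Bool × Fin m) // δ.card ≤ t}, x ^ (2 * m ^ 2 - δ.1.card) :=
          Finset.sum_le_sum fun δ _ => Nat.pow_le_pow_right hx (by have := δ.2; omega)
      _ ≤ ∑ δ : Finset (Fin m × Bool × Fin m), x ^ (2 * m ^ 2 - δ.card) := by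
          rw [← Finset.sum_subtype (univ.filter fun δ : Finset (Fin m × Bool × Fin m) =>
            δ.card ≤ t) (fun δ => by simp) (fun δ => x ^ (2 * m ^ 2 - δ.card))]
          exact Finset.sum_le_sum_of_subset (Finset.filter_subset _ _)
  rw [Finset.sum_const, Finset.card_univ, smul_eq_mul] at h2
  calc Fintype.card {δ : Finset (Fin m × Bool × Fin m) // δ.card ≤ t} * x ^ (2 * m ^ 2)
      ≤ Fintype.card {δ : Finset (Fin m × Bool × Fin m) // δ.card ≤ t} *
        (x ^ (2 * m ^ 2 - t) * x ^ t) := by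
        apply Nat.mul_le_mul_left
        rw [← pow_add]
        exact Nat.pow_le_pow_right hx (by omega)
    _ = x ^ t * (Fintype.card {δ : Finset (Fin m × Bool × Fin m) // δ.card ≤ t} *
        x ^ (2 * m ^ 2 - t)) := by ring
    _ ≤ x ^ t * (1 + x) ^ (2 * m ^ 2) := Nat.mul_le_mul_left _ h2

/-- If all the languages `LG G` have automata with at most `m` states and `t` transitions then
there are many automata. -/
lemma count_all {N m t : ℕ} (h : ∀ G : Finset (Fin N × Fin N), ∃ M : Aut Bool, M.lang = LG G ∧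
    M.numStates ≤ m ∧ M.numTrans ≤ t) :
    2 ^ (N ^ 2) ≤ m * (2 ^ m *
      Fintype.card {δ : Finset (Fin m × Bool × Fin m) // δ.card ≤ t}) := by
  classical
  have h' : ∀ G : Finset (Fin N × Fin N), ∃ c : Fin m × Finset (Fin m) ×
      {δ : Finset (Fin m × Bool × Fin m) // δ.card ≤ t},
      codeLang (c.1, c.2.1, c.2.2.1) = LG G := by
    intro G
    obtain ⟨M, h1, h2, h3⟩ := h G
    obtain ⟨⟨c1, c2, c3⟩, h4, h5⟩ := exists_code M h2 h3
    exact ⟨(c1, c2, ⟨c3, h4⟩), h5.trans h1⟩
  choose f hf using h'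
  have hinj : Function.Injective f := by
    intro G G' hG
    apply LG_injective
    rw [← hf G, ← hf G', hG]
  have := Fintype.card_le_of_injective f hinj
  simpa [Fintype.card_prod, ← sq] using this

lemma nsc_LG {N : ℕ} (G : Finset (Fin N × Fin N)) : nsc (LG G) ≤ 2 * N + 2 := by
  apply Nat.sInf_le
  exact ⟨small G, small_lang G, small_states G⟩

lemma tc_LG {K g : ℕ} (G : Finset (Fin (K * g) × Fin (K * g))) :
    tc (LG G) ≤ K * g + K * g + K * g * 2 ^ g + K * (K * g) := by
  refine le_trans ?_ (big_trans G)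
  apply Nat.sInf_le
  exact ⟨big G, big_lang G, rfl⟩

lemma exists_min {L : Set (List Bool)} (hL : Regular L) :
    ∃ M : Aut Bool, M.lang = L ∧ M.numTrans = tc L ∧ M.numStates = minStates L := by
  obtain ⟨M, hM⟩ := hL
  have h1 : tc L ∈ {n | ∃ M : Aut Bool, M.lang = L ∧ M.numTrans = n} :=
    Nat.sInf_mem ⟨_, M, hM, rfl⟩
  obtain ⟨M', h2, h3⟩ := h1
  exact Nat.sInf_mem (s := {n | ∃ M : Aut Bool, M.lang = L ∧ M.numTrans = tc L ∧
    M.numStates = n}) ⟨_, M', h2, h3, rfl⟩

/-- the numerical contradiction -/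
lemma numeric (c r g K N S : ℕ) (hc : 1 ≤ c) (hr : 256 * c ^ 2 ≤ 2 ^ r) (hg : 16 * r ≤ g)
    (hg0 : 1 ≤ g) (hgc : 32 * c ≤ g) (hK : K = 4 ^ g) (hN : N = K * g)
    (h1 : 2 ^ (N ^ 2) ≤ (4 * c * N) * (2 ^ (4 * c * N) * S))
    (h2 : S * (2 ^ r) ^ (2 * (4 * c * N) ^ 2) ≤
      (2 ^ r) ^ (4 * K * N) * (1 + 2 ^ r) ^ (2 * (4 * c * N) ^ 2)) : False := by
  set m := 4 * c * N with hm
  set t := 4 * K * N with ht
  have hKpos : 1 ≤ K := by rw [hK]; exact Nat.one_le_pow _ _ (by norm_num)
  have hNg : g ≤ N := by rw [hN]; exact Nat.le_mul_of_pos_left _ hKpos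
  have hNpos : 1 ≤ N := hg0.trans hNg
  have hmpos : 1 ≤ m := by
    rw [hm]
    exact Nat.succ_le_of_lt (by positivity)
  -- pass to the reals
  have hmlt : m ≤ 2 ^ m := Nat.lt_two_pow_self.le
  have h3 : 2 ^ (N ^ 2) ≤ 2 ^ (2 * m) * S := by
    calc 2 ^ (N ^ 2) ≤ m * (2 ^ m * S) := h1
      _ ≤ 2 ^ m * (2 ^ m * S) := Nat.mul_le_mul_right _ hmlt
      _ = 2 ^ (2 * m) * S := by rw [two_mul, pow_add, mul_assoc]
  have h4 : 2 ^ (N ^ 2) * (2 ^ r) ^ (2 * m ^ 2) ≤
      2 ^ (2 * m) * ((2 ^ r) ^ t * (1 + 2 ^ r) ^ (2 * m ^ 2)) := by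
    calc 2 ^ (N ^ 2) * (2 ^ r) ^ (2 * m ^ 2) ≤ 2 ^ (2 * m) * S * (2 ^ r) ^ (2 * m ^ 2) :=
          Nat.mul_le_mul_right _ h3
      _ = 2 ^ (2 * m) * (S * (2 ^ r) ^ (2 * m ^ 2)) := by rw [mul_assoc]
      _ ≤ _ := Nat.mul_le_mul_left _ h2
  have h5 : (2 : ℝ) ^ (N ^ 2) * ((2 : ℝ) ^ r) ^ (2 * m ^ 2) ≤
      2 ^ (2 * m) * (((2 : ℝ) ^ r) ^ t * (1 + (2 : ℝ) ^ r) ^ (2 * m ^ 2)) := by
    exact_mod_cast h4
  have hx : (0 : ℝ) < 2 ^ r := by positivity
  have h6 : (1 + (2 : ℝ) ^ r) ^ (2 * m ^ 2) ≤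
      ((2 : ℝ) ^ r) ^ (2 * m ^ 2) * Real.exp ((2 * m ^ 2 : ℕ) * (1 / 2 ^ r)) := by
    rw [Real.exp_nat_mul, ← mul_pow]
    refine pow_le_pow_left₀ (by positivity) ?_ _
    have h7 := Real.add_one_le_exp (1 / (2 : ℝ) ^ r)
    calc 1 + (2 : ℝ) ^ r = 2 ^ r * (1 / 2 ^ r + 1) := by field_simp
      _ ≤ _ := mul_le_mul_of_nonneg_left h7 hx.le
  have h7 : (2 : ℝ) ^ (N ^ 2) * ((2 : ℝ) ^ r) ^ (2 * m ^ 2) ≤
      (2 ^ (2 * m) * (((2 : ℝ) ^ r) ^ t * Real.exp ((2 * m ^ 2 : ℕ) * (1 / 2 ^ r)))) *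
        ((2 : ℝ) ^ r) ^ (2 * m ^ 2) := by
    refine h5.trans ?_
    calc 2 ^ (2 * m) * (((2 : ℝ) ^ r) ^ t * (1 + (2 : ℝ) ^ r) ^ (2 * m ^ 2))
        ≤ 2 ^ (2 * m) * (((2 : ℝ) ^ r) ^ t * (((2 : ℝ) ^ r) ^ (2 * m ^ 2) *
          Real.exp ((2 * m ^ 2 : ℕ) * (1 / 2 ^ r)))) := by gcongr
      _ = _ := by ring
  have h8 := le_of_mul_le_mul_right h7 (by positivity)
  have h9 := Real.log_le_log (by positivity) h8
  rw [Real.log_mul (by positivity) (by positivity), Real.log_mul (by positivity) (by positivity),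
    Real.log_exp, Real.log_pow, Real.log_pow, Real.log_pow, Real.log_pow] at h9
  have hl : (1 / 2 : ℝ) < Real.log 2 := by
    have := Real.log_two_gt_d9
    linarith
  -- the three error terms
  have hNr : (1 : ℝ) ≤ N := by exact_mod_cast hNpos
  have e1 : ((2 * m : ℕ) : ℝ) ≤ (N : ℝ) ^ 2 / 4 := by
    have : 4 * (2 * m) ≤ N ^ 2 := by
      calc 4 * (2 * m) = (32 * c) * N := by rw [hm]; ring
        _ ≤ N * N := Nat.mul_le_mul_right _ (hgc.trans hNg)
        _ = N ^ 2 := by ring
    have : ((4 * (2 * m) : ℕ) : ℝ) ≤ ((N ^ 2 : ℕ) : ℝ) := by exact_mod_cast this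
    push_cast at this ⊢
    linarith
  have e2 : ((t * r : ℕ) : ℝ) ≤ (N : ℝ) ^ 2 / 4 := by
    have : 4 * (t * r) ≤ N ^ 2 := by
      calc 4 * (t * r) = (K * N) * (16 * r) := by rw [ht]; ring
        _ ≤ (K * N) * g := Nat.mul_le_mul_left _ hg
        _ = N ^ 2 := by rw [hN]; ring
    have : ((4 * (t * r) : ℕ) : ℝ) ≤ ((N ^ 2 : ℕ) : ℝ) := by exact_mod_cast this
    push_cast at this ⊢
    linarith
  have e3 : ((2 * m ^ 2 : ℕ) : ℝ) * (1 / 2 ^ r) ≤ (N : ℝ) ^ 2 / 8 := by
    rw [mul_one_div, div_le_div_iff₀ hx (by norm_num)]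
    have : (2 * m ^ 2) * 8 ≤ N ^ 2 * 2 ^ r := by
      calc (2 * m ^ 2) * 8 = N ^ 2 * (256 * c ^ 2) := by rw [hm]; ring
        _ ≤ N ^ 2 * 2 ^ r := Nat.mul_le_mul_left _ hr
    exact_mod_cast this
  have hP : (0 : ℝ) < (N : ℝ) ^ 2 := by positivity
  have hlp : 0 < Real.log 2 := by linarith
  have f1 : ((2 * m : ℕ) : ℝ) * Real.log 2 ≤ (N : ℝ) ^ 2 / 4 * Real.log 2 :=
    mul_le_mul_of_nonneg_right e1 hlp.le
  have f2 : (t : ℝ) * ((r : ℝ) * Real.log 2) ≤ (N : ℝ) ^ 2 / 4 * Real.log 2 := by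
    have := mul_le_mul_of_nonneg_right e2 hlp.le
    push_cast at this
    linarith
  have f3 : (N : ℝ) ^ 2 / 8 < (N : ℝ) ^ 2 / 4 * Real.log 2 := by nlinarith
  have f4 : ((N ^ 2 : ℕ) : ℝ) * Real.log 2 = (N : ℝ) ^ 2 * Real.log 2 := by push_cast; ring
  rw [f4] at h9
  nlinarith [mul_pos hP hlp]

/-- **The conjecture fails already over a two-letter alphabet.** There is no constant `C` such
that every regular language `L ⊆ {a, b}^*` has a transition-minimal NFA with at most
`C * nsc L` states. -/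
theorem result : ¬ ∃ C : ℝ, ∀ L : Set (List Bool), Regular L →
    (minStates L : ℝ) ≤ C * nsc L := by
  rintro ⟨C, hC⟩
  obtain ⟨c, hc1, hc2⟩ : ∃ c : ℕ, 1 ≤ c ∧ C ≤ c := by
    obtain ⟨c, hc⟩ := exists_nat_ge C
    exact ⟨c + 1, by omega, hc.trans (by push_cast; linarith)⟩
  have hC' : ∀ L : Set (List Bool), Regular L → minStates L ≤ c * nsc L := by
    intro L hL
    have h1 := hC L hL
    have h2 : C * nsc L ≤ c * nsc L := mul_le_mul_of_nonneg_right hc2 (Nat.cast_nonneg _)
    exact_mod_cast h1.trans h2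
  set r := 256 * c ^ 2 with hr
  set g := 16 * r with hg
  have hrpos : 1 ≤ r := by rw [hr]; exact Nat.succ_le_of_lt (by positivity)
  have hcr : 2 * c ≤ r := by rw [hr]; nlinarith
  obtain ⟨K, hK⟩ : ∃ K : ℕ, K = 4 ^ g := ⟨_, rfl⟩
  obtain ⟨N, hN⟩ : ∃ N : ℕ, N = K * g := ⟨_, rfl⟩
  have hg0 : 1 ≤ g := by omega
  have hKpos : 1 ≤ K := by rw [hK]; exact Nat.one_le_pow _ _ (by norm_num)
  have hNpos : 1 ≤ N := by
    rw [hN]; exact Nat.succ_le_of_lt (Nat.mul_pos hKpos hg0)
  have hall : ∀ G : Finset (Fin (K * g) × Fin (K * g)), ∃ M : Aut Bool, M.lang = LG G ∧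
      M.numStates ≤ 4 * c * (K * g) ∧ M.numTrans ≤ 4 * K * (K * g) := by
    intro G
    obtain ⟨M, h1, h2, h3⟩ := exists_min (L := LG G) ⟨big G, big_lang G⟩
    refine ⟨M, h1, ?_, ?_⟩
    · rw [h3]
      refine (hC' _ ⟨big G, big_lang G⟩).trans ?_
      refine (Nat.mul_le_mul_left c (nsc_LG G)).trans ?_
      rw [← hN]
      nlinarith
    · rw [h2]
      refine (tc_LG G).trans ?_
      have h4 : 2 ^ g ≤ K := by
        rw [hK]
        exact Nat.pow_le_pow_left (by norm_num) _
      rw [← hN]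
      have h5 : N * 2 ^ g ≤ N * K := Nat.mul_le_mul_left _ h4
      have h6 : N ≤ K * N := Nat.le_mul_of_pos_left _ hKpos
      nlinarith
  have h1 := count_all hall
  rw [← hN] at h1
  have h2 := count_small (4 * c * N) (4 * K * N) (2 ^ r) Nat.one_le_two_pow
  exact numeric c r g K N _ hc1 (by rw [← hr]; exact Nat.lt_two_pow_self.le) le_rfl hg0
    (by omega) hK hN h1 h2

end Pool.Agent.Results.MP_48fb2a_lc.UnboundedRatio
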